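import Pool.Agent.W518.PR.Defs
import Pool.Agent.H907R3.Props

set_option autoImplicit false

open CategoryTheory Pool.Agent.H907R3

namespace Pool.Agent.W518.PR

/-! ### Elementary homological algebra of `ModCx` -/

namespace ModCx

variable {P : Type} [CommRing P]

/-- Exactness in positive degrees. -/
def Pos (K : ModCx P) : Prop := ∀ n (c : K.X (n + 1)), K.d (n + 1) c = 0 → ∃ b, K.d n b = c

/-- chain maps -/
structure Hom (A B : ModCx P) where
  f : ∀ n, A.X n →ₗ[P] B.X n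
  comm : ∀ n a, f (n + 1) (A.d n a) = B.d n (f n a)

/-- an injective chain map with acyclic cokernel -/
structure Hom.QI {A B : ModCx P} (φ : Hom A B) : Prop where
  inj : ∀ n, Function.Injective (φ.f n)
  zero : ∀ b : B.X 0, (∃ a, φ.f 1 a = B.d 0 b) → ∃ a, φ.f 0 a = b
  succ : ∀ n (b : B.X (n + 1)), (∃ a, φ.f (n + 2) a = B.d (n + 1) b) →
    ∃ a b', b = φ.f (n + 1) a + B.d n b'

/-- short exact sequences of complexes -/
structure IsSES {A B C : ModCx P} (φ : Hom A B) (ψ : Hom B C) : Prop where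
  inj : ∀ n, Function.Injective (φ.f n)
  exact : ∀ n b, ψ.f n b = 0 ↔ ∃ a, φ.f n a = b
  surj : ∀ n, Function.Surjective (ψ.f n)

end ModCx

/-- A1: a complex exact in positive degrees with projective `H^0` has no higher `Ext` to `P`. -/
def S_conc : Prop := ∀ (P : Type) [CommRing P] (K : ModCx P), K.Pos →
  Module.Projective P (LinearMap.ker (K.d 0)) → ∀ i : ℤ, 0 < i → K.ExtVanishes i

/-- A2: the long exact sequence. -/
def S_les : Prop := ∀ (P : Type) [CommRing P] (A B C : ModCx P) (φ : ModCx.Hom A B)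
  (ψ : ModCx.Hom B C), ModCx.IsSES φ ψ → ∀ i : ℤ, B.ExtVanishes i → C.ExtVanishes (i + 1) →
    A.ExtVanishes i

/-- A5: invariance under injective quasi-isomorphisms. -/
def S_qi : Prop := ∀ (P : Type) [CommRing P] (A B : ModCx P) (φ : ModCx.Hom A B), φ.QI →
  ∀ i : ℤ, A.ExtVanishes i ↔ B.ExtVanishes i

/-- A4: if `K` is exact in positive degrees and `Ext¹(K, P) = 0`, functionals extend along every
extension with quotient `H⁰(K)`. -/
def S_extend : Prop := ∀ (P : Type) [CommRing P] (K : ModCx P), K.Pos → K.ExtVanishes 1 →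
  ∀ (A B : Type) [AddCommGroup A] [AddCommGroup B] [Module P A] [Module P B] (f : A →ₗ[P] B)
    (g : B →ₗ[P] LinearMap.ker (K.d 0)), Function.Injective f → Function.Surjective g →
    (∀ b, g b = 0 ↔ ∃ a, f a = b) → ∀ l : A →ₗ[P] P, ∃ m : B →ₗ[P] P, ∀ a, m (f a) = l a

/-! ### Čech complexes on the six charts -/

section Cech

variable {P : Type} [CommRing P] {F : Type} [AddCommGroup F] [Module P F]

/-- the cochains with values in a family of submodules of `F` -/
def cochains (W : Finset (Fin 6) → Submodule P F) (n : ℕ) :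
    Submodule P ((Fin (n + 1) → Fin 6) → F) where
  carrier := {c | ∀ k, c k ∈ W (img k)}
  zero_mem' := fun _ => Submodule.zero_mem _
  add_mem' := fun ha hb k => Submodule.add_mem _ (ha k) (hb k)
  smul_mem' := fun p _ ha k => Submodule.smul_mem _ p (ha k)

/-- `dd` as a linear map -/
def ddL (n : ℕ) : ((Fin n → Fin 6) → F) →ₗ[P] ((Fin (n + 1) → Fin 6) → F) where
  toFun := dd
  map_add' := dd_add
  map_smul' := fun p c => by
    funext k
    simp only [dd, Pi.smul_apply, RingHom.id_apply, Finset.smul_sum]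
    exact Finset.sum_congr rfl fun a _ => smul_comm _ _ _

lemma ddL_apply (n : ℕ) (c : (Fin n → Fin 6) → F) : ddL (P := P) n c = dd c := rfl

/-- the Čech complex of a monotone family of submodules -/
def cech (W : Finset (Fin 6) → Submodule P F) (hW : Monotone W) : ModCx P where
  X n := cochains W n
  d n := ((ddL (n + 1)).comp (cochains W n).subtype).codRestrict (cochains W (n + 1)) (by
    intro c k
    change ∑ j : Fin (n + 1 + 1), (-1 : ℤ) ^ (j : ℕ) • c.1 (k ∘ j.succAbove) ∈ W (img k)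
    exact Submodule.sum_mem _ fun j _ => zsmul_mem (hW (img_face k j) (c.2 _)) _)
  dd n c := Subtype.ext (dd_dd c.1)

end Cech

/-- the polynomial ring `ℂ[y₀, …, y₅]` acts on the function field by `y_k ↦ x_k³` -/
noncomputable def cub : MP →ₐ[ℂ] K := MvPolynomial.aeval (fun k => x k ^ 3)

/-- the exterior algebra of the trivial bundle, as a `ℂ[y₀, …, y₅]`-module -/
def FL : Type := Lam

/-- the exterior algebra of `Ω_{K/ℂ}`, as a `ℂ[y₀, …, y₅]`-module -/
def FO : Type := LamO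

noncomputable instance : AddCommGroup FL := inferInstanceAs (AddCommGroup Lam)
noncomputable instance : AddCommGroup FO := inferInstanceAs (AddCommGroup LamO)
noncomputable instance : Module MP FL := Module.compHom Lam (cub : MP →+* K)
noncomputable instance : Module MP FO := Module.compHom LamO (cub : MP →+* K)

/-- the degrees `b, b + 3, b + 6, …` -/
def Gm (b : ℤ) : Set ℤ := {d | b ≤ d ∧ (3 : ℤ) ∣ d - b}

lemma cub_mem (p : MP) : cub p ∈ V ∅ G0 := by
  induction p using MvPolynomial.induction_on with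
  | C a =>
    rw [cub, MvPolynomial.aeval_C, Algebra.algebraMap_eq_smul_one]
    exact Submodule.smul_mem _ _ (one_mem_V zero_mem_G0)
  | add p q hp hq => rw [map_add]; exact Submodule.add_mem _ hp hq
  | mul_X p k hp =>
    rw [map_mul]
    have h : cub (MvPolynomial.X k) = x k ^ 3 := by rw [cub, MvPolynomial.aeval_X]
    rw [h]
    refine V_mul (Finset.Subset.refl _) (Finset.Subset.refl _) ?_ hp (cube_mem k)
    rintro a ha b rfl
    have h1 : 0 ≤ a := ha.1
    have h2 : (3 : ℤ) ∣ a := ha.2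
    exact ⟨by omega, by omega⟩

lemma smul_Gm (b : ℤ) : ∀ a ∈ G0, ∀ d ∈ Gm b, a + d ∈ Gm b := by
  intro a ha d hd
  have h1 : 0 ≤ a := ha.1
  have h2 : (3 : ℤ) ∣ a := ha.2
  have h3 : b ≤ d := hd.1
  have h4 : (3 : ℤ) ∣ d - b := hd.2
  exact ⟨by omega, by omega⟩

/-- `T q I (Gm b)` as a submodule -/
noncomputable def TP (q : ℕ) (b : ℤ) (I : Finset (Fin 6)) : Submodule MP FL where
  carrier := {ω : Lam | ω ∈ T q I (Gm b)}
  zero_mem' := AddSubgroup.zero_mem (T q I (Gm b))
  add_mem' := fun ha hb => AddSubgroup.add_mem (T q I (Gm b)) ha hb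
  smul_mem' := fun p _ h => T_smul (smul_Gm b)
    (V_mono (Finset.empty_subset I) (Set.Subset.refl _) (cub_mem p)) h

/-- `Z q I (Gm b)` as a submodule -/
noncomputable def ZP (q : ℕ) (b : ℤ) (I : Finset (Fin 6)) : Submodule MP FL where
  carrier := {ω : Lam | ω ∈ Z q I (Gm b)}
  zero_mem' := AddSubgroup.zero_mem (Z q I (Gm b))
  add_mem' := fun ha hb => AddSubgroup.add_mem (Z q I (Gm b)) ha hb
  smul_mem' := fun p ω h => by
    refine mem_Z.2 ⟨T_smul (smul_Gm b)
      (V_mono (Finset.empty_subset I) (Set.Subset.refl _) (cub_mem p)) (mem_Z.1 h).1, ?_⟩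
    have h2 : gr * (cub p • (@id Lam ω)) = cub p • (gr * @id Lam ω) := mul_smul_comm _ _ _
    have h3 : gr * @id Lam ω = 0 := (mem_Z.1 h).2
    rw [h3, smul_zero] at h2
    exact h2

/-- `W q I (Gm b)` as a submodule -/
noncomputable def WP (q : ℕ) (b : ℤ) (I : Finset (Fin 6)) : Submodule MP FO where
  carrier := {ω : LamO | ω ∈ W q I (Gm b)}
  zero_mem' := AddSubgroup.zero_mem (W q I (Gm b))
  add_mem' := fun ha hb => AddSubgroup.add_mem (W q I (Gm b)) ha hb
  smul_mem' := fun p _ h => W_smul (smul_Gm b)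
    (V_mono (Finset.empty_subset I) (Set.Subset.refl _) (cub_mem p)) h

lemma TP_mono (q : ℕ) (b : ℤ) : Monotone (TP q b) :=
  fun _ _ h _ hω => T_mono h (Set.Subset.refl _) hω

lemma ZP_mono (q : ℕ) (b : ℤ) : Monotone (ZP q b) :=
  fun _ _ h _ hω => mem_Z.2 ⟨T_mono h (Set.Subset.refl _) (mem_Z.1 hω).1, (mem_Z.1 hω).2⟩

lemma WP_mono (q : ℕ) (b : ℤ) : Monotone (WP q b) :=
  fun _ _ h _ hω => W_mono h (Set.Subset.refl _) hω

/-- the Čech complexes of the sheaves -/
noncomputable def CT (q : ℕ) (b : ℤ) : ModCx MP := cech (TP q b) (TP_mono q b)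
noncomputable def CZ (q : ℕ) (b : ℤ) : ModCx MP := cech (ZP q b) (ZP_mono q b)
noncomputable def CW (q : ℕ) (b : ℤ) : ModCx MP := cech (WP q b) (WP_mono q b)

/-- the normalization `Spec (AA ∅) → 𝔸⁶` given by the cubes of the coordinates `x₀, …, x₅` -/
noncomputable def nu : Normalization (AA ∅) 6 := ⟨ppi, ppi_injective, finite_ppi⟩

/-! ### The statements -/

/-- KER: the kernel of `d⁰` on a Čech complex, if the augmented complex is exact at that spot -/
def S_ker : Prop := ∀ (P : Type) [CommRing P] (F : Type) [AddCommGroup F] [Module P F]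
  (W : Finset (Fin 6) → Submodule P F) (hW : Monotone W),
  HV (fun I => (W I).toAddSubgroup) 0 →
  ∃ e : (W ∅) ≃ₗ[P] LinearMap.ker ((cech W hW).d 0),
    ∀ (w : W ∅) (k : Fin 1 → Fin 6), (show cochains W 0 from (e w).1).1 k = (w : F)

/-- PROJ: the module of sections of a sum of line bundles is projective -/
def S_proj : Prop := ∀ (q : ℕ) (b : ℤ), b ≤ 2 → Module.Projective MP (TP q b ∅)

/-- CTE: vanishing for the Čech complexes of sums of line bundles -/
def S_cte : Prop := ∀ (q : ℕ) (b : ℤ), -5 < b → b ≤ 2 → ∀ i : ℤ, 0 < i →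
  (CT q b).ExtVanishes i

/-- SESZ: the Koszul sequences -/
def S_sesz : Prop := ∀ (q : ℕ) (b : ℤ), ∃ (φ : ModCx.Hom (CZ q b) (CT q b))
  (ψ : ModCx.Hom (CT q b) (CZ (q + 1) (b + 1))), ModCx.IsSES φ ψ

/-- TOP: top degree -/
def S_top : Prop := ∀ b : ℤ, ZP 7 b = TP 7 b

/-- WZ: the sheaf of forms as a subsheaf -/
def S_wz : Prop := ∀ (q : ℕ) (b : ℤ), ∃ φ : ModCx.Hom (CW q b) (CZ (q + 1) (b + 1)), φ.QI

/-- DB: the Du Bois complexes -/
def S_db : Prop := ∀ p : ℕ, 1 ≤ p → ∃ φ : ModCx.Hom (CW p (3 - p)) (duBois HH nu p), φ.QI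

/-- ACY: the complex `RΓ` of the bundle of `3`-forms in degree `0` is acyclic -/
def S_acy : Prop := (∀ n, HV (fun I => Z 4 I {(-2 : ℤ)}) n) ∧ Z 4 ∅ {(-2 : ℤ)} = ⊥

/-- DEC: decomposition by the degree -/
def S_dec : Prop := ∃ π : Lam →+ Lam, ∀ I : Finset (Fin 6),
  (∀ ω ∈ Z 4 I (Gm (-2)), π ω ∈ Z 4 I {(-2 : ℤ)} ∧ ω - π ω ∈ Z 4 I (Gm 1)) ∧
  (∀ ω ∈ Z 4 I (Gm 1), π ω = 0)

/-- TRU: comparison with the truncation -/
def S_tru : Prop := ∃ φ : ModCx.Hom (CZ 4 1) (CZ 4 (-2)), φ.QI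

/-- FUN: a functional on the sections of `gr ∧ T 0` and a relation -/
def S_fun : Prop := ∃ (l : ZP 1 2 ∅ →ₗ[MP] MP) (s : ZP 1 2 ∅) (t : Fin 9 → TP 1 2 ∅)
  (p : Fin 9 → MP), l s = 1 ∧ (∀ j, MvPolynomial.eval (fun _ => (0 : ℂ)) (p j) = 0) ∧
    ((s : FL) = ∑ j, p j • (t j : FL))

/-- NON: the nonvanishing -/
def S_non : Prop := ¬ (CW 1 2).ExtVanishes 1

end Pool.Agent.W518.PR
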