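import Pool.Agent.W518.PR.LES

set_option autoImplicit false

open CategoryTheory Pool.Agent.H907R3

namespace Pool.Agent.W518.PR

namespace Asm

/-- exactness in positive degrees from the vanishing of the cohomology -/
lemma cech_pos {P : Type} [CommRing P] {F : Type} [AddCommGroup F] [Module P F]
    (W : Finset (Fin 6) → Submodule P F) (hW : Monotone W)
    (h : ∀ n, HV (fun I => (W I).toAddSubgroup) (n + 1)) : (cech W hW).Pos := by
  intro n c hc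
  obtain ⟨b, hb, hdb⟩ := h n c.1 c.2 (congrArg Subtype.val hc)
  exact ⟨⟨b, hb⟩, Subtype.ext hdb⟩

lemma Gm_gt {b a : ℤ} (h : a < b) : ∀ d ∈ Gm b, a < d := fun _ hd => lt_of_lt_of_le h hd.1

lemma HV_TP (q : ℕ) (b : ℤ) (hb : -5 < b) (n : ℕ) : HV (fun I => (TP q b I).toAddSubgroup) n :=
  HV_T q (Gm_gt hb) n

lemma HV_WP (q : ℕ) (b : ℤ) (hb : (q : ℤ) - 5 < b) (n : ℕ) :
    HV (fun I => (WP q b I).toAddSubgroup) n :=
  HV_W q (Gm_gt hb) n

theorem cte (h1 : S_conc) (h2 : S_ker) (h3 : S_proj) : S_cte := by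
  intro q b hb hb2 i hi
  obtain ⟨e, -⟩ := h2 MP FL (TP q b) (TP_mono q b) (HV_TP q b hb 0)
  have h4 := h3 q b hb2
  have h5 : Module.Projective MP (LinearMap.ker ((CT q b).d 0)) := Module.Projective.of_equiv e
  exact h1 MP (CT q b) (cech_pos _ _ fun n => HV_TP q b hb (n + 1)) h5 i hi

/-- one step of the Koszul sequence -/
lemma step (hles : S_les) (hses : S_sesz) (hcte : S_cte) {q : ℕ} {b : ℤ} (hb : -5 < b)
    (hb2 : b ≤ 2) (h : ∀ i : ℤ, 0 < i → (CZ (q + 1) (b + 1)).ExtVanishes i) :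
    ∀ i : ℤ, 0 < i → (CZ q b).ExtVanishes i := by
  intro i hi
  obtain ⟨φ, ψ, hs⟩ := hses q b
  exact hles MP _ _ _ φ ψ hs i (hcte q b hb hb2 i hi) (h (i + 1) (by omega))

lemma top (hcte : S_cte) (htop : S_top) {b : ℤ} (hb : -5 < b) (hb2 : b ≤ 2) :
    ∀ i : ℤ, 0 < i → (CZ 7 b).ExtVanishes i := by
  intro i hi
  have h : CZ 7 b = CT 7 b := by
    have h1 := htop b
    unfold CZ CT
    congr 1
  rw [h]
  exact hcte 7 b hb hb2 i hi

lemma Gm_sub : Gm 1 ⊆ Gm (-2) := by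
  rintro d ⟨h1, h2⟩
  exact ⟨by omega, by omega⟩

lemma single_sub : ({(-2 : ℤ)} : Set ℤ) ⊆ Gm (-2) := by
  rintro d rfl
  exact ⟨le_rfl, by simp⟩

lemma Z_mono {Γ Γ' : Set ℤ} (I : Finset (Fin 6)) (h : Γ ⊆ Γ') : Z 4 I Γ ≤ Z 4 I Γ' := by
  intro ω hω
  exact mem_Z.2 ⟨T_mono (Finset.Subset.refl _) h (mem_Z.1 hω).1, (mem_Z.1 hω).2⟩

lemma tru_key (hacy : S_acy) (hdec : S_dec) (n : ℕ) (b : (Fin (n + 1) → Fin 6) → Lam)
    (hb : ∀ k, b k ∈ Z 4 (img k) (Gm (-2))) (hdb : ∀ k, dd b k ∈ Z 4 (img k) (Gm 1)) :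
    ∃ (b₁ : (Fin (n + 1) → Fin 6) → Lam) (b' : (Fin n → Fin 6) → Lam),
      (∀ k, b₁ k ∈ Z 4 (img k) (Gm 1)) ∧ (∀ k, b' k ∈ Z 4 (img k) {(-2 : ℤ)}) ∧
        b = b₁ + dd b' := by
  obtain ⟨π, hπ⟩ := hdec
  obtain ⟨b', hb', hdb'⟩ := hacy.1 n (fun k => π (b k)) (fun k => ((hπ _).1 _ (hb k)).1) (by
    rw [dd_map]
    funext k
    exact (hπ _).2 _ (hdb k))
  refine ⟨fun k => b k - π (b k), b', fun k => ((hπ _).1 _ (hb k)).2, hb', ?_⟩
  rw [hdb']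
  funext k
  exact (sub_add_cancel _ _).symm

/-- comparison of two families of submodules -/
lemma incl_QI {P : Type} [CommRing P] {F : Type} [AddCommGroup F] [Module P F]
    (W₁ W₂ : Finset (Fin 6) → Submodule P F) (h₁ : Monotone W₁) (h₂ : Monotone W₂)
    (hle : ∀ I, W₁ I ≤ W₂ I)
    (k0 : ∀ b : (Fin 1 → Fin 6) → F, (∀ k, b k ∈ W₂ (img k)) → (∀ k, dd b k ∈ W₁ (img k)) →
      ∀ k, b k ∈ W₁ (img k))
    (k1 : ∀ (n : ℕ) (b : (Fin (n + 2) → Fin 6) → F), (∀ k, b k ∈ W₂ (img k)) →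
      (∀ k, dd b k ∈ W₁ (img k)) → ∃ (b₁ : (Fin (n + 2) → Fin 6) → F)
        (b' : (Fin (n + 1) → Fin 6) → F), (∀ k, b₁ k ∈ W₁ (img k)) ∧ (∀ k, b' k ∈ W₂ (img k)) ∧
          b = b₁ + dd b') :
    ∃ φ : ModCx.Hom (cech W₁ h₁) (cech W₂ h₂), φ.QI := by
  let φ : ModCx.Hom (cech W₁ h₁) (cech W₂ h₂) :=
    { f := fun n => Submodule.inclusion (p := cochains W₁ n)
        (p' := cochains W₂ n) (fun c hc k => hle _ (hc k))
      comm := fun n a => rfl }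
  have hdb : ∀ (n : ℕ) (b : (cech W₂ h₂).X n) (a : (cech W₁ h₁).X (n + 1)),
      φ.f (n + 1) a = (cech W₂ h₂).d n b → ∀ k, dd b.1 k ∈ W₁ (img k) := by
    intro n b a ha k
    have h1 : a.1 k = dd b.1 k := congrArg (fun c => c.1 k) ha
    have h2 : a.1 k ∈ W₁ (img k) := a.2 k
    rw [h1] at h2
    exact h2
  refine ⟨φ, ?_, ?_, ?_⟩
  · intro n a b h
    exact Subtype.ext (congrArg (fun c => c.1) h)
  · rintro b ⟨a, ha⟩
    exact ⟨⟨b.1, k0 b.1 b.2 (hdb 0 b a ha)⟩, rfl⟩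
  · rintro n b ⟨a, ha⟩
    obtain ⟨b₁, b', h1, h2, h3⟩ := k1 n b.1 b.2 (hdb (n + 1) b a ha)
    exact ⟨⟨b₁, h1⟩, ⟨b', h2⟩, Subtype.ext h3⟩

lemma tru_key0 (hacy : S_acy) (hdec : S_dec) (b : (Fin 1 → Fin 6) → Lam)
    (hb : ∀ k, b k ∈ Z 4 (img k) (Gm (-2))) (hdb : ∀ k, dd b k ∈ Z 4 (img k) (Gm 1)) :
    ∀ k, b k ∈ Z 4 (img k) (Gm 1) := by
  obtain ⟨b₁, b', h1, h2, h3⟩ := tru_key hacy hdec 0 b hb hdb
  have h0 : dd b' = 0 := by
    have h4 : b' = 0 := by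
      funext k
      have h1 := h2 k
      have h2 : img k = ∅ := by simp [img]
      rw [h2, hacy.2] at h1
      exact (AddSubgroup.mem_bot).1 h1
    rw [h4]
    funext k
    simp [dd]
  rw [h0, add_zero] at h3
  rw [h3]
  exact h1

/-- the truncation -/
theorem tru (hacy : S_acy) (hdec : S_dec) : S_tru := by
  refine incl_QI (ZP 4 1) (ZP 4 (-2)) (ZP_mono 4 1) (ZP_mono 4 (-2)) ?_ ?_ ?_
  · intro I ω hω
    exact Z_mono I Gm_sub hω
  · intro b hb hdb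
    exact tru_key0 hacy hdec b hb hdb
  · intro n b hb hdb
    obtain ⟨b₁, b', h1, h2, h3⟩ := tru_key hacy hdec (n + 1) b hb hdb
    exact ⟨b₁, b', h1, fun k => Z_mono _ single_sub (h2 k), h3⟩

/-- the projection on the forms on the cone, on global sections -/
noncomputable def proj1 : TP 1 2 ∅ →ₗ[MP] WP 1 2 ∅ where
  toFun t := ⟨Phi (@id Lam t.1), mem_W.2 ⟨t.1, t.2, rfl⟩⟩
  map_add' a b := Subtype.ext (map_add Phi (@id Lam a.1) (@id Lam b.1))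
  map_smul' p a := Subtype.ext (map_smul Phi (cub p) (@id Lam a.1))

lemma proj1_surj : Function.Surjective proj1 := by
  rintro ⟨w, hw⟩
  obtain ⟨t, ht, rfl⟩ := mem_W.1 hw
  exact ⟨⟨t, ht⟩, rfl⟩

/-- the inclusion -/
noncomputable def inc1 : ZP 1 2 ∅ →ₗ[MP] TP 1 2 ∅ :=
  Submodule.inclusion (p := ZP 1 2 ∅) (p' := TP 1 2 ∅) (fun _ h => (mem_Z.1 h).1)

lemma proj1_eq_zero (t : TP 1 2 ∅) : proj1 t = 0 ↔ ∃ a, inc1 a = t := by
  constructor
  · intro h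
    have h1 : Phi (@id Lam t.1) = 0 := congrArg Subtype.val h
    rw [Phi_eq_zero_iff] at h1
    exact ⟨⟨t.1, mem_Z.2 ⟨t.2, h1⟩⟩, rfl⟩
  · rintro ⟨a, rfl⟩
    apply Subtype.ext
    exact (Phi_eq_zero_iff _).2 (mem_Z.1 a.2).2

/-- the nonvanishing -/
theorem non (h1 : S_extend) (h2 : S_ker) (h3 : S_fun) : S_non := by
  intro hv
  obtain ⟨e', -⟩ := h2 MP FO (WP 1 2) (WP_mono 1 2) (HV_WP 1 2 (by norm_num) 0)
  let e : (WP 1 2 ∅) ≃ₗ[MP] LinearMap.ker ((CW 1 2).d 0) := e'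
  obtain ⟨l, s, t, p, hls, hp, hst⟩ := h3
  have hpos : (CW 1 2).Pos := cech_pos _ _ fun n => HV_WP 1 2 (by norm_num) (n + 1)
  obtain ⟨m, hm⟩ := h1 MP (CW 1 2) hpos hv (ZP 1 2 ∅) (TP 1 2 ∅) inc1
    ((e : WP 1 2 ∅ →ₗ[MP] LinearMap.ker ((CW 1 2).d 0)).comp proj1)
    (fun a b h => Subtype.ext (congrArg (fun c : TP 1 2 ∅ => c.1) h)) (e.surjective.comp proj1_surj)
    (fun b => by
      rw [LinearMap.comp_apply]
      exact (e.map_eq_zero_iff (x := proj1 b)).trans (proj1_eq_zero b)) l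
  have h4 : inc1 s = ∑ j, p j • t j := by
    apply Subtype.ext
    rw [Submodule.coe_sum]
    exact hst
  have h5 := hm s
  rw [h4, hls, map_sum] at h5
  have h6 := congrArg (MvPolynomial.eval (fun _ => (0 : ℂ))) h5
  rw [map_sum, map_one] at h6
  have h7 : ∀ j, MvPolynomial.eval (fun _ => (0 : ℂ)) (m (p j • t j)) = 0 := by
    intro j
    rw [map_smul, smul_eq_mul, map_mul, hp j, zero_mul]
  simp only [h7, Finset.sum_const_zero] at h6
  exact zero_ne_one h6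

theorem dual_of (hqi : S_qi) (hwz : S_wz) (hdb : S_db) (p : ℕ) (hp : 1 ≤ p) (i : ℤ)
    (h : (CZ (p + 1) (3 - p + 1)).ExtVanishes i) : DualVanishes HH nu p i := by
  obtain ⟨φ, hφ⟩ := hdb p hp
  obtain ⟨ψ, hψ⟩ := hwz p (3 - p)
  exact (hqi MP _ _ φ hφ i).1 ((hqi MP _ _ ψ hψ i).2 h)

theorem final (hconc : S_conc) (hles : S_les) (hqi : S_qi) (hext : S_extend) (hker : S_ker)
    (hproj : S_proj) (hses : S_sesz) (htop : S_top) (hwz : S_wz) (hdb : S_db) (hacy : S_acy)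
    (hdec : S_dec) (hfun : S_fun) : IsPreRational HH nu 3 ∧ ¬ IsPreRational HH nu 6 := by
  have hcte : S_cte := cte hconc hker hproj
  constructor
  · intro i hi p hp _
    have hst : ∀ {q : ℕ} {b : ℤ}, -5 < b → b ≤ 2 →
        (∀ i : ℤ, 0 < i → (CZ (q + 1) (b + 1)).ExtVanishes i) →
        ∀ i : ℤ, 0 < i → (CZ q b).ExtVanishes i := fun hb hb2 h => step hles hses hcte hb hb2 h
    have htp : ∀ {b : ℤ}, -5 < b → b ≤ 2 → ∀ i : ℤ, 0 < i → (CZ 7 b).ExtVanishes i :=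
      fun hb hb2 => top hcte htop hb hb2
    interval_cases p
    · exact dual_of hqi hwz hdb 6 (by norm_num) i
        (htp (b := ((3 : ℤ) - (6 : ℕ) + 1)) (by norm_num) (by norm_num) i hi)
    · refine dual_of hqi hwz hdb 5 (by norm_num) i ?_
      refine hst (b := ((3 : ℤ) - (5 : ℕ) + 1)) (by norm_num) (by norm_num) ?_ i hi
      exact htp (by norm_num) (by norm_num)
    · refine dual_of hqi hwz hdb 4 (by norm_num) i ?_
      refine hst (b := ((3 : ℤ) - (4 : ℕ) + 1)) (by norm_num) (by norm_num) ?_ i hi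
      refine hst (by norm_num) (by norm_num) ?_
      exact htp (by norm_num) (by norm_num)
    · refine dual_of hqi hwz hdb 3 (by norm_num) i ?_
      obtain ⟨φ, hφ⟩ := tru hacy hdec
      have h1 : ((3 : ℤ) - (3 : ℕ) + 1) = 1 := by norm_num
      rw [h1]
      refine (hqi MP _ _ φ hφ i).2 ?_
      refine hst (by norm_num) (by norm_num) ?_ i hi
      refine hst (by norm_num) (by norm_num) ?_
      refine hst (by norm_num) (by norm_num) ?_
      exact htp (by norm_num) (by norm_num)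
  · intro h
    have h1 : DualVanishes HH nu (6 - 5) 1 := h 1 one_pos 5 (by norm_num) (by norm_num)
    obtain ⟨φ, hφ⟩ := hdb 1 le_rfl
    have h2 : ((3 : ℤ) - (1 : ℕ)) = 2 := by norm_num
    have h3 : (CW 1 ((3 : ℤ) - (1 : ℕ))).ExtVanishes 1 := (hqi MP _ _ φ hφ 1).2 h1
    rw [h2] at h3
    exact non hext hker hfun h3

end Asm

end Pool.Agent.W518.PR
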