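import Pool.Agent.H907R3.FormMap
import Pool.Agent.H907R3.Cech

/-!
# Pre-`m`-rational singularities

For a normal affine complex variety `X = Spec R` of dimension `n` we fix a smooth affine cubical
hyperresolution `D` of `X` and a finite surjective morphism `π : X → 𝔸ⁿ` (Noether normalization),
that is a finite injective homomorphism `P = ℂ[y₁, …, y_n] → R`. The graded piece `Ω̲^q` of the
Du Bois complex of `X` is the complex `duBois D π q`. By duality for the finite morphism `π`

`π_* 𝔻_X(K) = π_* RHom_X(K, ω_X^•)[-n] = RHom_{𝔸ⁿ}(π_* K, ω_{𝔸ⁿ}[n])[-n] = RHom_P(K, P)`,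

so `ℋ^i(𝔻_X(K)) = 0` if and only if `Ext^i_P(K, P) = Hom_{D(P)}(K, P[i]) = 0`.
-/

set_option autoImplicit false

open CategoryTheory Pool.Agent.H907R3

namespace Pool.Agent.W518.PR

/-- A complex `X 0 → X 1 → X 2 → ⋯` of modules over a commutative ring `P`. -/
structure ModCx (P : Type) [CommRing P] where
  X : ℕ → Type
  [grp : ∀ n, AddCommGroup (X n)]
  [mod : ∀ n, Module P (X n)]
  d : ∀ n, X n →ₗ[P] X (n + 1)
  dd : ∀ n x, d (n + 1) (d n x) = 0

attribute [instance] ModCx.grp ModCx.mod

namespace ModCx

variable {P : Type} [CommRing P]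

/-- The complex as a cochain complex indexed by the natural numbers. -/
noncomputable def nat (K : ModCx P) : CochainComplex (ModuleCat.{0} P) ℕ :=
  CochainComplex.of (fun n => ModuleCat.of P (K.X n)) (fun n => ModuleCat.ofHom (K.d n))
    (fun n => by
      rw [← ModuleCat.ofHom_comp, ← ModuleCat.ofHom_zero]
      congr 1
      ext x
      exact K.dd n x)

/-- The complex as a cochain complex indexed by the integers (zero in negative degrees). -/
noncomputable def cx (K : ModCx P) : CochainComplex (ModuleCat.{0} P) ℤ :=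
  K.nat.extend ComplexShape.embeddingUpNat

/-- `Ext^i_P(K, P) = 0`: every morphism `K → P[i]` in the derived category of `P`-modules is
zero. -/
def ExtVanishes (K : ModCx P) (i : ℤ) : Prop :=
  letI : HasDerivedCategory.{1} (ModuleCat.{0} P) := HasDerivedCategory.standard _
  ∀ f : DerivedCategory.Q.obj K.cx ⟶
    ((DerivedCategory.singleFunctor (ModuleCat.{0} P) 0).obj (ModuleCat.of P P))⟦i⟧, f = 0

end ModCx

/-- A finite surjective morphism `Spec R → 𝔸ⁿ`, that is a finite injective homomorphism
`ℂ[y₁, …, y_n] → R`. -/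
structure Normalization (R : Type) [CommRing R] [Algebra ℂ R] (n : ℕ) where
  map : MvPolynomial (Fin n) ℂ →ₐ[ℂ] R
  injective : Function.Injective map
  finite : map.toRingHom.Finite

/-- The square of the coboundary is zero. -/
lemma coboundary_coboundary {N : Type} [DecidableEq N] (M : Finset N → Type)
    [∀ α, AddCommGroup (M α)] (φ : ∀ {α β : Finset N}, α ⊆ β → M α →+ M β)
    (φ_comp : ∀ {α β γ : Finset N} (h₁ : α ⊆ β) (h₂ : β ⊆ γ) (m : M α),
      φ h₂ (φ h₁ m) = φ (h₁.trans h₂) m)
    {n : ℕ} (c : ∀ k : Fin n → N, M (img k)) :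
    coboundary M φ (coboundary M φ c) = 0 := by
  funext k
  have hsub : ∀ l : Fin n → Fin (n + 2), img (k ∘ l) ⊆ img k := by
    intro l a ha
    simp only [img, Finset.mem_image, Finset.mem_univ, true_and, Function.comp_apply] at ha ⊢
    obtain ⟨i, rfl⟩ := ha
    exact ⟨_, rfl⟩
  have h := congrFun (dd_dd (fun l : Fin n → Fin (n + 2) => φ (hsub l) (c (k ∘ l)))) id
  rw [Pi.zero_apply] at h ⊢
  rw [← h]
  simp only [coboundary, dd, map_sum, map_zsmul]
  refine Finset.sum_congr rfl fun i _ => ?_
  congr 1
  refine Finset.sum_congr rfl fun j _ => ?_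
  congr 1
  rw [φ_comp]
  rfl

section DuBois

variable {R : Type} [CommRing R] [Algebra ℂ R] (D : CubicalHyperresolution R) {n : ℕ}
  (π : Normalization R n) (q : ℕ)

/-- The forms of degree `q` on `X_α`, as a module over `ℂ[y₁, …, y_n]`. -/
def FormsOver (_ : Normalization R n) (α : Finset D.N) : Type := Forms (D.A α) q

noncomputable instance (α : Finset D.N) : AddCommGroup (FormsOver D q π α) :=
  inferInstanceAs (AddCommGroup (Forms (D.A α) q))

noncomputable instance (α : Finset D.N) : Module (MvPolynomial (Fin n) ℂ) (FormsOver D q π α) :=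
  Module.compHom (Forms (D.A α) q) ((D.str α).comp π.map).toRingHom

/-- Pull-back of forms. -/
noncomputable def resForms {α β : Finset D.N} (h : α ⊆ β) :
    FormsOver D q π α →+ FormsOver D q π β := formMap q (D.res h)

lemma resForms_smul {α β : Finset D.N} (h : α ⊆ β) (p : MvPolynomial (Fin n) ℂ)
    (ω : FormsOver D q π α) : resForms D π q h (p • ω) = p • resForms D π q h ω := by
  have h1 : D.res h (D.str α (π.map p)) = D.str β (π.map p) :=
    congrArg (fun f => f (π.map p)) (D.res_str h)
  have h2 := fM_smul q (D.res h) (D.str α (π.map p)) ω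
  rw [← formMap_eq, h1] at h2
  exact h2

lemma resForms_comp {α β γ : Finset D.N} (h₁ : α ⊆ β) (h₂ : β ⊆ γ) (ω : FormsOver D q π α) :
    resForms D π q h₂ (resForms D π q h₁ ω) = resForms D π q (h₁.trans h₂) ω := by
  have h3 := fM_comp q (D.res h₁) (D.res h₂) ω
  rw [D.res_res, ← formMap_eq, ← formMap_eq, ← formMap_eq] at h3
  exact h3

/-- The complex `Ω̲^q_X` of modules over `ℂ[y₁, …, y_n]`: the cochain complex of the diagram of
the modules of forms of degree `q` on the `X_α`, `α ≠ ∅`. In degree `j` it is the product of the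
`Ω^q_{X_α}`, `α = {k₀, …, k_j}`, over all `(k₀, …, k_j)`. -/
noncomputable def duBois : ModCx (MvPolynomial (Fin n) ℂ) where
  X j := ∀ k : Fin (j + 1) → D.N, FormsOver D q π (img k)
  d j :=
    { toFun := coboundary (fun α => FormsOver D q π α) (fun h => resForms D π q h)
      map_add' := fun c c' => by
        funext k
        simp only [coboundary, Pi.add_apply, map_add, smul_add, Finset.sum_add_distrib]
      map_smul' := fun p c => by
        funext k
        simp only [coboundary, Pi.smul_apply, RingHom.id_apply, resForms_smul, Finset.smul_sum]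
        refine Finset.sum_congr rfl fun a _ => ?_
        rw [smul_comm] }
  dd j c := coboundary_coboundary _ _ (fun h₁ h₂ m => resForms_comp D π q h₁ h₂ m) c

end DuBois

/-- `ℋ^i(𝔻_X(Ω̲^q_X)) = 0`, computed with the hyperresolution `D` and the normalization `π`. -/
def DualVanishes {R : Type} [CommRing R] [Algebra ℂ R] (D : CubicalHyperresolution R) {n : ℕ}
    (π : Normalization R n) (q : ℕ) (i : ℤ) : Prop :=
  (duBois D π q).ExtVanishes i

/-- `X = Spec R`, of dimension `n`, is pre-`m`-rational: `ℋ^i(𝔻_X(Ω̲^{n-p}_X)) = 0` for all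
`i > 0` and all `0 ≤ p ≤ m` (computed with the hyperresolution `D` and the normalization `π`). -/
def IsPreRational {R : Type} [CommRing R] [Algebra ℂ R] (D : CubicalHyperresolution R) {n : ℕ}
    (π : Normalization R n) (m : ℕ) : Prop :=
  ∀ i : ℤ, 0 < i → ∀ p : ℕ, p ≤ m → p ≤ n → DualVanishes D π (n - p) i

end Pool.Agent.W518.PR
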