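import Pool.Agent.W518.PR.QI

set_option autoImplicit false

open CategoryTheory Limits Pretriangulated

namespace Pool.Agent.W518.PR

namespace LES

variable {P : Type} [CommRing P]

section Derived

variable [HasDerivedCategory.{1} (ModuleCat.{0} P)]

lemma shift_eq_zero {X Y : DerivedCategory (ModuleCat.{0} P)} (i : ℤ)
    (h : ∀ f : X ⟶ Y⟦i + 1⟧, f = 0) (u : X ⟶ (Y⟦i⟧)⟦(1 : ℤ)⟧) : u = 0 := by
  have h1 := h (u ≫ (shiftFunctorAdd (DerivedCategory (ModuleCat.{0} P)) i 1).inv.app Y)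
  have h2 : (u ≫ (shiftFunctorAdd (DerivedCategory (ModuleCat.{0} P)) i 1).inv.app Y) ≫
      (shiftFunctorAdd (DerivedCategory (ModuleCat.{0} P)) i 1).hom.app Y = 0 := by
    rw [h1, zero_comp]
  rw [Category.assoc, Iso.inv_hom_id_app] at h2
  exact (Category.comp_id u).symm.trans h2

/-- the long exact sequence of a triangle -/
lemma triangle (T : Triangle (DerivedCategory (ModuleCat.{0} P))) (hT : T ∈ distTriang _)
    (Y : DerivedCategory (ModuleCat.{0} P)) (i : ℤ) (hB : ∀ f : T.obj₂ ⟶ Y⟦i⟧, f = 0)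
    (hC : ∀ f : T.obj₃ ⟶ Y⟦i + 1⟧, f = 0) (f : T.obj₁ ⟶ Y⟦i⟧) : f = 0 := by
  apply (shiftFunctor (DerivedCategory (ModuleCat.{0} P)) (1 : ℤ)).map_injective
  rw [Functor.map_zero]
  obtain ⟨g, hg⟩ := Triangle.yoneda_exact₃ _ (rot_of_distTriang _ hT) (f⟦(1 : ℤ)⟧')
    (shift_eq_zero i hC _)
  obtain ⟨g', rfl⟩ := (shiftFunctor (DerivedCategory (ModuleCat.{0} P)) (1 : ℤ)).map_surjective g
  have h0 : (shiftFunctor (DerivedCategory (ModuleCat.{0} P)) (1 : ℤ)).map g' = 0 :=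
    (congrArg (fun k => (shiftFunctor (DerivedCategory (ModuleCat.{0} P)) (1 : ℤ)).map k)
      (hB g')).trans (Functor.map_zero _ _ _)
  refine hg.trans ?_
  refine (congrArg (fun k => T.rotate.mor₃ ≫ k) h0).trans ?_
  exact comp_zero

end Derived

theorem main : S_les := by
  intro P _ A B C φ ψ h i hB hC
  let _ : HasDerivedCategory.{1} (ModuleCat.{0} P) := HasDerivedCategory.standard _
  exact triangle _ (DerivedCategory.triangleOfSES_distinguished (QI.shortCx_exact φ ψ h)) _ i hB hC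

end LES

end Pool.Agent.W518.PR
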