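import Pool.Agent.W518.PR.Stm

set_option autoImplicit false

open CategoryTheory Limits Pretriangulated

namespace Pool.Agent.W518.PR

namespace QI

variable {P : Type} [CommRing P]

lemma nat_X (K : ModCx P) (n : ℕ) : K.nat.X n = ModuleCat.of P (K.X n) := rfl

lemma nat_d (K : ModCx P) (n : ℕ) : K.nat.d n (n + 1) = ModuleCat.ofHom (K.d n) :=
  CochainComplex.of_d (V := ModuleCat.{0} P) (fun n => ModuleCat.of P (K.X n))
    (fun n => ModuleCat.ofHom (K.d n)) n

/-- the map of complexes -/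
noncomputable def natMap {A B : ModCx P} (φ : ModCx.Hom A B) : A.nat ⟶ B.nat :=
  CochainComplex.ofHom (fun n => ModuleCat.ofHom (φ.f n)) (fun n => by
    rw [nat_d, nat_d]
    refine (ModuleCat.ofHom_comp _ _).symm.trans
      (Eq.trans ?_ (ModuleCat.ofHom_comp _ _))
    congr 1
    ext x
    exact (φ.comm n x).symm)

lemma natMap_f {A B : ModCx P} (φ : ModCx.Hom A B) (n : ℕ) :
    (natMap φ).f n = ModuleCat.ofHom (φ.f n) := rfl

lemma exactAt_succ (K : ModCx P) (h : K.Pos) (n : ℕ) : K.nat.ExactAt (n + 1) := by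
  rw [HomologicalComplex.exactAt_iff' (i := n) (j := n + 1) (k := n + 2) _ (by simp) (by simp)]
  rw [ShortComplex.moduleCat_exact_iff]
  intro x hx
  have h1 : K.nat.d (n + 1) (n + 2) = ModuleCat.ofHom (K.d (n + 1)) := nat_d K (n + 1)
  have h2 : K.nat.d n (n + 1) = ModuleCat.ofHom (K.d n) := nat_d K n
  change (K.nat.d (n + 1) (n + 2)).hom x = 0 at hx
  rw [h1] at hx
  obtain ⟨b, hb⟩ := h n x hx
  refine ⟨b, ?_⟩
  change (K.nat.d n (n + 1)).hom b = x
  rw [h2]
  exact hb

lemma exactAt_zero (K : ModCx P) (h : ∀ x : K.X 0, K.d 0 x = 0 → x = 0) : K.nat.ExactAt 0 := by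
  rw [HomologicalComplex.exactAt_iff' (i := 0) (j := 0) (k := 1) _ (by simp) (by simp)]
  rw [ShortComplex.moduleCat_exact_iff]
  intro x hx
  have h1 : K.nat.d 0 1 = ModuleCat.ofHom (K.d 0) := nat_d K 0
  change (K.nat.d 0 1).hom x = 0 at hx
  rw [h1] at hx
  refine ⟨0, ?_⟩
  rw [map_zero]
  exact (h x hx).symm

lemma cx_acyclic (K : ModCx P) (h : K.Pos) (h0 : ∀ x : K.X 0, K.d 0 x = 0 → x = 0) :
    ∀ i : ℤ, K.cx.ExactAt i := by
  intro i
  by_cases hi : ∃ n : ℕ, ComplexShape.embeddingUpNat.f n = i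
  · obtain ⟨n, hn⟩ := hi
    rw [ModCx.cx, HomologicalComplex.extend_exactAt_iff _ _ hn]
    cases n with
    | zero => exact exactAt_zero K h0
    | succ n => exact exactAt_succ K h n
  · push Not at hi
    exact HomologicalComplex.extend_exactAt _ _ i hi

/-- the map of complexes indexed by the integers -/
noncomputable def cxMap {A B : ModCx P} (φ : ModCx.Hom A B) : A.cx ⟶ B.cx :=
  HomologicalComplex.extendMap (natMap φ) _

/-- the short complex -/
noncomputable def shortNat {A B C : ModCx P} (φ : ModCx.Hom A B) (ψ : ModCx.Hom B C)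
    (h : ModCx.IsSES φ ψ) : ShortComplex (CochainComplex (ModuleCat.{0} P) ℕ) :=
  ShortComplex.mk (natMap φ) (natMap ψ) (by
    apply HomologicalComplex.hom_ext
    intro n
    rw [HomologicalComplex.comp_f, natMap_f, natMap_f, HomologicalComplex.zero_f]
    refine (ModuleCat.ofHom_comp _ _).symm.trans (Eq.trans ?_ ModuleCat.ofHom_zero)
    congr 1
    ext x
    exact (h.exact n _).2 ⟨x, rfl⟩)

lemma shortNat_exact {A B C : ModCx P} (φ : ModCx.Hom A B) (ψ : ModCx.Hom B C)
    (h : ModCx.IsSES φ ψ) (n : ℕ) :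
    ((shortNat φ ψ h).map (HomologicalComplex.eval _ _ n)).ShortExact := by
  refine ShortComplex.ShortExact.mk' ?_ ?_ ?_
  · rw [ShortComplex.moduleCat_exact_iff]
    intro x hx
    exact (h.exact n x).1 hx
  · exact (ModuleCat.mono_iff_injective _).2 (h.inj n)
  · exact (ModuleCat.epi_iff_surjective _).2 (h.surj n)

/-- the short complex of complexes indexed by the integers -/
noncomputable def shortCx {A B C : ModCx P} (φ : ModCx.Hom A B) (ψ : ModCx.Hom B C)
    (h : ModCx.IsSES φ ψ) : ShortComplex (CochainComplex (ModuleCat.{0} P) ℤ) :=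
  (shortNat φ ψ h).map (ComplexShape.embeddingUpNat.extendFunctor (ModuleCat.{0} P))

lemma shortCx_exact {A B C : ModCx P} (φ : ModCx.Hom A B) (ψ : ModCx.Hom B C)
    (h : ModCx.IsSES φ ψ) : (shortCx φ ψ h).ShortExact := by
  apply HomologicalComplex.shortExact_of_degreewise_shortExact
  intro i
  by_cases hi : ∃ n : ℕ, ComplexShape.embeddingUpNat.f n = i
  · obtain ⟨n, hn⟩ := hi
    refine ShortComplex.shortExact_of_iso ?_ (shortNat_exact φ ψ h n)
    refine ShortComplex.isoMk (HomologicalComplex.extendXIso A.nat _ hn).symm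
      (HomologicalComplex.extendXIso B.nat _ hn).symm
      (HomologicalComplex.extendXIso C.nat _ hn).symm ?_ ?_
    · change _ ≫ (HomologicalComplex.extendMap (natMap φ) _).f i = _
      rw [HomologicalComplex.extendMap_f _ _ hn]
      exact Iso.inv_hom_id_assoc _ _
    · change _ ≫ (HomologicalComplex.extendMap (natMap ψ) _).f i = _
      rw [HomologicalComplex.extendMap_f _ _ hn]
      exact Iso.inv_hom_id_assoc _ _
  · push Not at hi
    have h1 : IsZero (A.cx.X i) := HomologicalComplex.isZero_extend_X _ _ i hi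
    have h2 : IsZero (B.cx.X i) := HomologicalComplex.isZero_extend_X _ _ i hi
    have h3 : IsZero (C.cx.X i) := HomologicalComplex.isZero_extend_X _ _ i hi
    refine ShortComplex.ShortExact.mk' ?_ ?_ ?_
    · exact ShortComplex.exact_of_isZero_X₂ _ h2
    · exact ⟨fun f g _ => h1.eq_of_tgt _ _⟩
    · exact ⟨fun f g _ => h3.eq_of_src _ _⟩

/-- the cokernel of an injective chain map -/
def cok {A B : ModCx P} (φ : ModCx.Hom A B) : ModCx P where
  X n := B.X n ⧸ LinearMap.range (φ.f n)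
  d n := (LinearMap.range (φ.f n)).mapQ (LinearMap.range (φ.f (n + 1))) (B.d n) (by
    rintro _ ⟨a, rfl⟩
    exact ⟨A.d n a, φ.comm n a⟩)
  dd n x := by
    obtain ⟨b, rfl⟩ := Submodule.Quotient.mk_surjective _ x
    rw [Submodule.mapQ_apply, Submodule.mapQ_apply, B.dd, Submodule.Quotient.mk_zero]

/-- the projection to the cokernel -/
def cokMap {A B : ModCx P} (φ : ModCx.Hom A B) : ModCx.Hom B (cok φ) where
  f n := (LinearMap.range (φ.f n)).mkQ
  comm _ _ := rfl

lemma cok_ses {A B : ModCx P} (φ : ModCx.Hom A B) (h : φ.QI) : ModCx.IsSES φ (cokMap φ) where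
  inj := h.inj
  exact n b := by
    change Submodule.Quotient.mk b = 0 ↔ _
    rw [Submodule.Quotient.mk_eq_zero]
    exact Iff.rfl
  surj n := Submodule.Quotient.mk_surjective _

lemma cok_zero {A B : ModCx P} (φ : ModCx.Hom A B) (h : φ.QI) (x : (cok φ).X 0)
    (hx : (cok φ).d 0 x = 0) : x = 0 := by
  obtain ⟨b, rfl⟩ := Submodule.Quotient.mk_surjective _ x
  have h1 : (Submodule.Quotient.mk (B.d 0 b) : (cok φ).X 1) = 0 := hx
  rw [Submodule.Quotient.mk_eq_zero] at h1
  exact (Submodule.Quotient.mk_eq_zero (LinearMap.range (φ.f 0))).2 (h.zero b h1)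

lemma cok_pos {A B : ModCx P} (φ : ModCx.Hom A B) (h : φ.QI) : (cok φ).Pos := by
  intro n x hx
  obtain ⟨b, rfl⟩ := Submodule.Quotient.mk_surjective _ x
  have h1 : (Submodule.Quotient.mk (B.d (n + 1) b) : (cok φ).X (n + 2)) = 0 := hx
  rw [Submodule.Quotient.mk_eq_zero] at h1
  obtain ⟨a, b', hb⟩ := h.succ n b h1
  refine ⟨Submodule.Quotient.mk b', ?_⟩
  change Submodule.Quotient.mk (B.d n b') = Submodule.Quotient.mk b
  rw [hb, Submodule.Quotient.mk_add]
  have h2 : (Submodule.Quotient.mk (φ.f (n + 1) a) : (cok φ).X (n + 1)) = 0 := by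
    rw [Submodule.Quotient.mk_eq_zero]
    exact ⟨a, rfl⟩
  refine Eq.symm ?_
  refine Eq.trans (congrArg (fun y => y + Submodule.Quotient.mk (B.d n b')) h2) ?_
  exact zero_add _

section Derived

variable [HasDerivedCategory.{1} (ModuleCat.{0} P)]

lemma isZero_Q (K : CochainComplex (ModuleCat.{0} P) ℤ) (hK : ∀ i, K.ExactAt i) :
    IsZero (DerivedCategory.Q.obj K) := by
  have h : QuasiIso (0 : K ⟶ K) := by
    rw [quasiIso_iff]
    intro i
    rw [quasiIsoAt_iff_exactAt _ _ (hK i)]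
    exact hK i
  have h1 : IsIso (DerivedCategory.Q.map (0 : K ⟶ K)) := inferInstance
  rw [Functor.map_zero] at h1
  rw [IsZero.iff_id_eq_zero]
  have h2 := IsIso.hom_inv_id (0 : DerivedCategory.Q.obj K ⟶ DerivedCategory.Q.obj K)
  rw [zero_comp] at h2
  exact h2.symm

lemma isIso_Q {A B : ModCx P} (φ : ModCx.Hom A B) (h : φ.QI) :
    IsIso (DerivedCategory.Q.map (cxMap φ)) := by
  have hS := shortCx_exact φ (cokMap φ) (cok_ses φ h)
  have hT := DerivedCategory.triangleOfSES_distinguished hS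
  exact (Triangle.isZero₃_iff_isIso₁ _ hT).1
    (isZero_Q _ (cx_acyclic (cok φ) (cok_pos φ h) (cok_zero φ h)))

end Derived

theorem main : S_qi := by
  intro P _ A B φ h i
  let _ : HasDerivedCategory.{1} (ModuleCat.{0} P) := HasDerivedCategory.standard _
  have h1 := isIso_Q φ h
  constructor
  · intro hA f
    have h2 := hA (DerivedCategory.Q.map (cxMap φ) ≫ f)
    have h3 : inv (DerivedCategory.Q.map (cxMap φ)) ≫ DerivedCategory.Q.map (cxMap φ) ≫ f = 0 := by
      rw [h2, comp_zero]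
    rw [IsIso.inv_hom_id_assoc] at h3
    exact h3
  · intro hB f
    have h2 := hB (inv (DerivedCategory.Q.map (cxMap φ)) ≫ f)
    have h3 : DerivedCategory.Q.map (cxMap φ) ≫ inv (DerivedCategory.Q.map (cxMap φ)) ≫ f = 0 := by
      rw [h2, comp_zero]
    rw [IsIso.hom_inv_id_assoc] at h3
    exact h3

end QI

end Pool.Agent.W518.PR
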